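import Pool.Agent.H27.LZ.CMain
import Pool.Agent.H27.LZ.RevC
import Pool.Agent.H27.LZ.DegB

set_option autoImplicit false

/-!
# Limit directions and the closure of the unimodular directions (MP_de6c1e_al, Q2)

For every Lorentzian geometric Coxeter system the closure of the set of the unimodular directions is
contained in the set `E_V` of limit directions, and the two sets are equal if and only if the system is
not degenerate (`Degenerate`: the Lorentzian component of `W` is an infinite dihedral group).

The first part: by a Baire category argument a point of the closure is a limit direction as soon as
every vector orthogonal to two fixed vectors of hyperbolic elements can be moved, after an arbitrarily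
small perturbation, near to every unit vector of every unimodular subspace.  The vectors which can be
reached in one unimodular subspace are invariant under transport around quadrilaterals of fixed
points; at a vector of maximal inner product with a given vector the derivative of the transport
around thin quadrilaterals vanishes, and this forces the two vectors to be proportional.
-/

open scoped LinearAlgebra.Projectivization

namespace Pool.Agent.Results.MP_de6c1e_al.ClosureUnimodular

open Pool.Agent.H27.LZ.Cox GeomCoxeter

/-- For every Lorentzian geometric Coxeter system every point of the closure of `𝒰_hyp` is a
limit direction, and `E_V` equals the closure of `𝒰_hyp` if and only if the system is not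
degenerate. -/
theorem result (n : ℕ) (X : GeomCoxeter n) (hX : X.IsLorentzian) :
    @closure _ (projTopology n) X.unimodularDirections ⊆ X.limitDirections ∧
      (X.limitDirections = @closure _ (projTopology n) X.unimodularDirections ↔
        ¬ Degenerate X) := by
  refine ⟨closure_subset X hX, fun h hd => ?_, fun hd => ?_⟩
  · obtain ⟨p, h1, h2⟩ := deg_ne X hX hd
    exact h2 (h ▸ h1)
  · exact Set.Subset.antisymm (limit_sub X hX hd) (closure_subset X hX)

end Pool.Agent.Results.MP_de6c1e_al.ClosureUnimodular
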