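import Mathlib

set_option autoImplicit false

/-!
# Limit directions versus unimodular eigendirections (MP_de6c1e_al, Q1)

For the ideal triangle group `W` (rank `3`, all `m s t = ∞`, all `c s t = 1`) the direction of a
simple root `α` is a limit direction, although it is space-like (hence no limit root) and
belongs to no `ℙ U_w` with `w` hyperbolic.

Idea: space-like directions correspond to geodesics of the hyperbolic plane.  The geodesic of `α`
joins two cusps, so it is not the axis of a hyperbolic element of `W` (its end points would be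
rational eigenvectors of an integral matrix).  On the other hand a geodesic issuing from a cusp
towards a point whose partial quotients `2, 4, 6, …` tend to infinity has translates
converging to the geodesic of `α`.
-/

open scoped LinearAlgebra.Projectivization
open Filter Topology

namespace Pool.Agent.Results.MP_de6c1e_al.IdealTriangle

/-- The space `V = ℝⁿ`; the standard basis plays the role of the simple roots. -/
abbrev V (n : ℕ) : Type := Fin n → ℝ

/-- The usual (quotient) topology on the real projective space `ℙ V`. -/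
@[instance_reducible]
def projTopology (n : ℕ) : TopologicalSpace (ℙ ℝ (V n)) :=
  inferInstanceAs (TopologicalSpace (Quotient (projectivizationSetoid ℝ (V n))))

/-- The data of a geometric Coxeter system of finite rank `n`: a Coxeter matrix `m`
(Mathlib's convention: the entry `0` stands for `∞`) and real numbers `c s t = c t s ≥ 1`
(only used when `m s t = ∞`). -/
structure GeomCoxeter (n : ℕ) where
  m : CoxeterMatrix (Fin n)
  c : Fin n → Fin n → ℝ
  c_symm : ∀ s t, c s t = c t s
  one_le_c : ∀ s t, 1 ≤ c s t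

namespace GeomCoxeter

variable {n : ℕ} (X : GeomCoxeter n)

/-- The matrix `B`: `-cos (π / m s t)` if `m s t < ∞` and `-c s t` if `m s t = ∞`. -/
noncomputable def gram (s t : Fin n) : ℝ :=
  if X.m s t = 0 then -X.c s t else -Real.cos (Real.pi / X.m s t)

/-- The bilinear form `𝓑` on `V`. -/
noncomputable def form (x y : V n) : ℝ := ∑ s, ∑ t, x s * X.gram s t * y t

/-- The simple root `α_s`. -/
def root (s : Fin n) : V n := Pi.single s 1

/-- The form has signature `(n-1, 1)`. -/
def IsLorentzian : Prop :=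
  ∃ (b : Module.Basis (Fin n) ℝ (V n)) (i₀ : Fin n),
    X.form (b i₀) (b i₀) < 0 ∧ (∀ i, i ≠ i₀ → 0 < X.form (b i) (b i)) ∧
      ∀ i j, i ≠ j → X.form (b i) (b j) = 0

theorem form_root_root (s t : Fin n) : X.form (root s) (root t) = X.gram s t := by
  simp only [form, root]
  rw [Finset.sum_eq_single s]
  · rw [Finset.sum_eq_single t]
    · simp
    · intro b _ hb; simp [hb]
    · simp
  · intro b _ hb; simp [hb]
  · simp

theorem gram_self (s : Fin n) : X.gram s s = 1 := by
  simp [gram]

theorem form_root_self (s : Fin n) : X.form (root s) (root s) = 1 := by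
  rw [form_root_root, gram_self]

theorem form_add_left (x y z : V n) : X.form (x + y) z = X.form x z + X.form y z := by
  simp only [form, Pi.add_apply, add_mul, Finset.sum_add_distrib]

theorem form_smul_left (a : ℝ) (x z : V n) : X.form (a • x) z = a * X.form x z := by
  simp only [form, Pi.smul_apply, smul_eq_mul, Finset.mul_sum, mul_assoc]

/-- The reflection `σ_{α_s} : x ↦ x - 2 𝓑(x, α_s) / 𝓑(α_s, α_s) α_s`, as a linear map. -/
noncomputable def reflLin (s : Fin n) : V n →ₗ[ℝ] V n where
  toFun x := x - (2 * X.form x (root s) / X.form (root s) (root s)) • root s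
  map_add' x y := by
    rw [form_add_left, form_root_self]; module
  map_smul' a x := by
    rw [form_smul_left, form_root_self]; simp only [RingHom.id_apply]; module

/-- The reflection `σ_{α_s}` as an element of the general linear group. -/
noncomputable def simpleReflection (s : Fin n) : V n ≃ₗ[ℝ] V n :=
  LinearEquiv.ofInvolutive (X.reflLin s) (by
    intro x
    have h1 : X.reflLin s x = x + (-(2 * X.form x (root s))) • root s := by
      change x - (2 * X.form x (root s) / X.form (root s) (root s)) • root s = _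
      rw [form_root_self]; module
    have h2 : X.form (X.reflLin s x) (root s) = - X.form x (root s) := by
      rw [h1, form_add_left, form_smul_left, form_root_self]; ring
    change X.reflLin s x - (2 * X.form (X.reflLin s x) (root s) /
      X.form (root s) (root s)) • root s = x
    rw [h2, h1, form_root_self]; module)

/-- The group `W`, realised (faithfully) on `V`: the group generated by the simple
reflections. -/
noncomputable def W : Subgroup (V n ≃ₗ[ℝ] V n) :=
  Subgroup.closure (Set.range X.simpleReflection)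

/-- `p` is the limit of an injective sequence of points of the orbit `W · p₀`. -/
def IsLimitOf (p₀ p : ℙ ℝ (V n)) : Prop :=
  ∃ u : ℕ → ℙ ℝ (V n), Function.Injective u ∧ (∀ k, ∃ w ∈ X.W, u k = w • p₀) ∧
    Tendsto u atTop (@nhds _ (projTopology n) p)

/-- The set `E_V` of limit directions. -/
def limitDirections : Set (ℙ ℝ (V n)) := {p | ∃ p₀, X.IsLimitOf p₀ p}

theorem root_ne_zero (s : Fin n) : (root s : V n) ≠ 0 := by
  simp [root]

/-- The set `E_Φ` of limit roots. -/
def limitRoots : Set (ℙ ℝ (V n)) :=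
  {p | ∃ s : Fin n, X.IsLimitOf (Projectivization.mk ℝ (root s) (root_ne_zero s)) p}

/-- `w` has a (complex) eigenvalue of modulus `> 1`. -/
def IsHyperbolic (w : V n ≃ₗ[ℝ] V n) : Prop :=
  ∃ (z : ℂ) (u : Fin n → ℂ), 1 < ‖z‖ ∧ u ≠ 0 ∧
    ((LinearMap.toMatrix' (w : V n →ₗ[ℝ] V n)).map (algebraMap ℝ ℂ)).mulVec u = z • u

/-- The unimodular subspace `U_w`: the vectors orthogonal to all eigenvectors of `w` whose
eigenvalue has modulus different from `1` (for `w` hyperbolic these are `x_w` and `y_w`, up to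
scalars). -/
def unimodularSubspace (w : V n ≃ₗ[ℝ] V n) : Submodule ℝ (V n) where
  carrier := {v | ∀ (t : ℝ) (x : V n), |t| ≠ 1 → w x = t • x → X.form v x = 0}
  add_mem' := by
    intro a b ha hb t x ht hx
    rw [form_add_left, ha t x ht hx, hb t x ht hx, add_zero]
  zero_mem' := by
    intro t x _ _
    simp [form]
  smul_mem' := by
    intro c a ha t x ht hx
    rw [form_smul_left, ha t x ht hx, mul_zero]

/-- The set `𝒰_hyp`, the union of the `ℙ U_w` over all hyperbolic `w ∈ W`. -/
def unimodularDirections : Set (ℙ ℝ (V n)) :=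
  {p | ∃ w ∈ X.W, IsHyperbolic w ∧ p.submodule ≤ X.unimodularSubspace w}

end GeomCoxeter

open GeomCoxeter

/-! ### The counterexample: the ideal triangle group -/

/-- All `m s t = ∞` for `s ≠ t` and all `c s t = 1`. -/
def idealTriangle : GeomCoxeter 3 where
  m :=
    { M := Matrix.of fun i j => if i = j then 1 else 0
      isSymm := by decide
      diagonal := by decide
      off_diagonal := by intro i j h; simp [h] }
  c := fun _ _ => 1
  c_symm := fun _ _ => rfl
  one_le_c := fun _ _ => le_refl 1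

theorem gram_eq (s t : Fin 3) : idealTriangle.gram s t = if s = t then 1 else -1 := by
  by_cases h : s = t
  · subst h; simp [gram_self]
  · simp [gram, idealTriangle, h]

theorem form_eq (x y : V 3) : idealTriangle.form x y =
    x 0 * (y 0 - y 1 - y 2) + x 1 * (- y 0 + y 1 - y 2) + x 2 * (- y 0 - y 1 + y 2) := by
  simp only [form, Fin.sum_univ_three, gram_eq]
  simp
  ring

theorem refl_apply (s : Fin 3) (x : V 3) : idealTriangle.simpleReflection s x =
    x - (2 * idealTriangle.form x (root s)) • root s := by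
  change x - (2 * idealTriangle.form x (root s) /
    idealTriangle.form (root s) (root s)) • root s = _
  rw [form_root_self, div_one]

theorem refl0 (x : V 3) : idealTriangle.simpleReflection 0 x =
    ![- x 0 + 2 * x 1 + 2 * x 2, x 1, x 2] := by
  rw [refl_apply, form_eq]
  ext i
  fin_cases i <;> simp [root]
  ring

theorem refl1 (x : V 3) : idealTriangle.simpleReflection 1 x =
    ![x 0, 2 * x 0 - x 1 + 2 * x 2, x 2] := by
  rw [refl_apply, form_eq]
  ext i
  fin_cases i <;> simp [root]
  ring

theorem refl2 (x : V 3) : idealTriangle.simpleReflection 2 x =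
    ![x 0, x 1, 2 * x 0 + 2 * x 1 - x 2] := by
  rw [refl_apply, form_eq]
  ext i
  fin_cases i <;> simp [root]
  ring

theorem lorentzian : idealTriangle.IsLorentzian := by
  let b : Fin 3 → V 3 := ![![1, 1, 1], ![1, -1, 0], ![1, 1, -2]]
  have hli : LinearIndependent ℝ b := by
    rw [Fintype.linearIndependent_iff]
    intro g hg
    have h0 := congrFun hg 0
    have h1 := congrFun hg 1
    have h2 := congrFun hg 2
    simp [b, Fin.sum_univ_three] at h0 h1 h2
    intro i
    fin_cases i
    · simp; linarith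
    · simp; linarith
    · simp; linarith
  let B : Module.Basis (Fin 3) ℝ (V 3) :=
    basisOfLinearIndependentOfCardEqFinrank hli (by simp)
  have hB : ∀ i, B i = b i := fun i => by simp [B]
  refine ⟨B, 0, ?_, ?_, ?_⟩
  · rw [hB, form_eq]; simp [b]; norm_num
  · intro i hi
    rw [hB, form_eq]
    fin_cases i
    · exact absurd rfl hi
    · simp [b]
    · simp [b]; norm_num
  · intro i j hij
    rw [hB, hB, form_eq]
    fin_cases i <;> fin_cases j <;> simp [b] at hij ⊢ <;> norm_num

/-! ### Integrality -/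

/-- Vectors with integer coordinates. -/
def IsInt (x : V 3) : Prop := ∃ z : Fin 3 → ℤ, x = fun i => (z i : ℝ)

theorem isInt_refl (s : Fin 3) (x : V 3) (hx : IsInt x) :
    IsInt (idealTriangle.simpleReflection s x) := by
  obtain ⟨z, rfl⟩ := hx
  fin_cases s
  · refine ⟨![- z 0 + 2 * z 1 + 2 * z 2, z 1, z 2], ?_⟩
    change idealTriangle.simpleReflection 0 _ = _
    rw [refl0]
    ext i; fin_cases i <;> simp
  · refine ⟨![z 0, 2 * z 0 - z 1 + 2 * z 2, z 2], ?_⟩
    change idealTriangle.simpleReflection 1 _ = _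
    rw [refl1]
    ext i; fin_cases i <;> simp
  · refine ⟨![z 0, z 1, 2 * z 0 + 2 * z 1 - z 2], ?_⟩
    change idealTriangle.simpleReflection 2 _ = _
    rw [refl2]
    ext i; fin_cases i <;> simp

theorem form_refl (s : Fin 3) (x y : V 3) :
    idealTriangle.form (idealTriangle.simpleReflection s x)
      (idealTriangle.simpleReflection s y) = idealTriangle.form x y := by
  fin_cases s
  · change idealTriangle.form (idealTriangle.simpleReflection 0 x)
      (idealTriangle.simpleReflection 0 y) = _
    rw [refl0, refl0, form_eq, form_eq]; simp; ring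
  · change idealTriangle.form (idealTriangle.simpleReflection 1 x)
      (idealTriangle.simpleReflection 1 y) = _
    rw [refl1, refl1, form_eq, form_eq]; simp; ring
  · change idealTriangle.form (idealTriangle.simpleReflection 2 x)
      (idealTriangle.simpleReflection 2 y) = _
    rw [refl2, refl2, form_eq, form_eq]; simp; ring

theorem refl_refl (s : Fin 3) (x : V 3) :
    idealTriangle.simpleReflection s (idealTriangle.simpleReflection s x) = x := by
  fin_cases s
  · change idealTriangle.simpleReflection 0 (idealTriangle.simpleReflection 0 x) = _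
    rw [refl0, refl0]; ext i; fin_cases i <;> simp
    ring
  · change idealTriangle.simpleReflection 1 (idealTriangle.simpleReflection 1 x) = _
    rw [refl1, refl1]; ext i; fin_cases i <;> simp
    ring
  · change idealTriangle.simpleReflection 2 (idealTriangle.simpleReflection 2 x) = _
    rw [refl2, refl2]; ext i; fin_cases i <;> simp

theorem refl_inv (s : Fin 3) :
    (idealTriangle.simpleReflection s)⁻¹ = idealTriangle.simpleReflection s := by
  rw [inv_eq_iff_mul_eq_one]
  ext1 x
  exact refl_refl s x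

theorem W_props (w : V 3 ≃ₗ[ℝ] V 3) (hw : w ∈ idealTriangle.W) :
    (∀ x, IsInt x → IsInt (w x)) ∧ ∀ x y, idealTriangle.form (w x) (w y) =
      idealTriangle.form x y := by
  induction hw using Subgroup.closure_induction'' with
  | mem g hg =>
    obtain ⟨s, rfl⟩ := hg
    exact ⟨isInt_refl s, form_refl s⟩
  | inv_mem g hg =>
    obtain ⟨s, rfl⟩ := hg
    rw [refl_inv]
    exact ⟨isInt_refl s, form_refl s⟩
  | one => exact ⟨fun x hx => hx, fun x y => rfl⟩
  | mul g h _ _ hg hh =>
    exact ⟨fun x hx => hg.1 _ (hh.1 x hx), fun x y => by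
      change idealTriangle.form (g (h x)) (g (h y)) = _
      rw [hg.2, hh.2]⟩

theorem form_self (x : V 3) : idealTriangle.form x x =
    2 * (x 0 ^ 2 + x 1 ^ 2 + x 2 ^ 2) - (x 0 + x 1 + x 2) ^ 2 := by
  rw [form_eq]; ring

theorem eq_zero_of_isotropic (x : V 3) (h : idealTriangle.form x x = 0)
    (h0 : x 0 + x 1 + x 2 = 0) : x = 0 := by
  rw [form_self, h0] at h
  have h1 : x 0 = 0 := by nlinarith [sq_nonneg (x 0), sq_nonneg (x 1), sq_nonneg (x 2)]
  have h2 : x 1 = 0 := by nlinarith [sq_nonneg (x 0), sq_nonneg (x 1), sq_nonneg (x 2)]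
  have h3 : x 2 = 0 := by nlinarith [sq_nonneg (x 0), sq_nonneg (x 1), sq_nonneg (x 2)]
  ext i; fin_cases i <;> simp [h1, h2, h3]

theorem parallel (p q : V 3) (hp : p ≠ 0) (hpp : idealTriangle.form p p = 0)
    (hqq : idealTriangle.form q q = 0) (hpq : idealTriangle.form p q = 0) :
    ∃ l : ℝ, q = l • p := by
  have hτ : p 0 + p 1 + p 2 ≠ 0 := fun h => hp (eq_zero_of_isotropic p hpp h)
  refine ⟨(q 0 + q 1 + q 2) / (p 0 + p 1 + p 2), ?_⟩
  set l := (q 0 + q 1 + q 2) / (p 0 + p 1 + p 2) with hl
  have hl' : l * (p 0 + p 1 + p 2) = q 0 + q 1 + q 2 := by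
    rw [hl]; field_simp
  have h0 : q + (-l) • p = 0 := by
    apply eq_zero_of_isotropic
    · rw [form_eq] at hpp hqq hpq ⊢
      simp only [Pi.add_apply, Pi.smul_apply, smul_eq_mul]
      linear_combination hqq + l ^ 2 * hpp - 2 * l * hpq
    · simp only [Pi.add_apply, Pi.smul_apply, smul_eq_mul]
      linarith
  have : q = q + (-l) • p + l • p := by module
  rw [this, h0, zero_add]

/-- A hyperbolic element of `W` has a real isotropic eigenvector. -/
theorem hyperbolic_real (w : V 3 ≃ₗ[ℝ] V 3) (hw : w ∈ idealTriangle.W)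
    (h : IsHyperbolic w) : ∃ (t : ℝ) (x : V 3), 1 < |t| ∧ x ≠ 0 ∧ w x = t • x ∧
      idealTriangle.form x x = 0 := by
  obtain ⟨z, u, hz, hu, hwu⟩ := h
  obtain ⟨-, hform⟩ := W_props w hw
  set p : V 3 := fun i => (u i).re with hp
  set q : V 3 := fun i => (u i).im with hq
  have hmul : ∀ x : V 3, w x = (LinearMap.toMatrix' (w : V 3 →ₗ[ℝ] V 3)).mulVec x := by
    intro x
    rw [LinearMap.toMatrix'_mulVec]; rfl
  have key : ∀ i, (w p) i = z.re * p i - z.im * q i ∧ (w q) i = z.im * p i + z.re * q i := by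
    intro i
    have h1 := congrFun hwu i
    rw [hmul, hmul]
    simp only [Matrix.mulVec, dotProduct, Matrix.map_apply, Pi.smul_apply, smul_eq_mul] at h1 ⊢
    constructor
    · have h2 := congrArg Complex.re h1
      rw [Complex.re_sum, Complex.mul_re] at h2
      rw [← h2]
      apply Finset.sum_congr rfl
      intro j _
      simp [hp]
    · have h2 := congrArg Complex.im h1
      rw [Complex.im_sum, Complex.mul_im] at h2
      rw [add_comm, ← h2]
      apply Finset.sum_congr rfl
      intro j _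
      simp [hq]
  have hwp : w p = z.re • p + (-z.im) • q := by
    ext i; rw [(key i).1]; simp; ring
  have hwq : w q = z.im • p + z.re • q := by
    ext i; rw [(key i).2]; simp
  have e1 := hform p p
  have e2 := hform q q
  have e3 := hform p q
  rw [hwp] at e1 e3
  rw [hwq] at e2 e3
  have hr : 1 < z.re ^ 2 + z.im ^ 2 := by
    have : ‖z‖ ^ 2 = z.re ^ 2 + z.im ^ 2 := by
      rw [← Complex.normSq_eq_norm_sq, Complex.normSq_apply]; ring
    rw [← this]
    nlinarith
  set a := z.re
  set b := z.im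
  set P := idealTriangle.form p p with hP
  set Q := idealTriangle.form q q with hQ
  set R := idealTriangle.form p q with hR
  have f1 : P = a ^ 2 * P - 2 * a * b * R + b ^ 2 * Q := by
    refine e1.symm.trans ?_
    simp only [hP, hQ, hR, form_eq, Pi.add_apply, Pi.smul_apply, smul_eq_mul]
    ring
  have f2 : Q = b ^ 2 * P + 2 * a * b * R + a ^ 2 * Q := by
    refine e2.symm.trans ?_
    simp only [hP, hQ, hR, form_eq, Pi.add_apply, Pi.smul_apply, smul_eq_mul]
    ring
  have f3 : R = a * b * P + (a ^ 2 - b ^ 2) * R - a * b * Q := by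
    refine e3.symm.trans ?_
    simp only [hP, hQ, hR, form_eq, Pi.add_apply, Pi.smul_apply, smul_eq_mul]
    ring
  have g1 : P + Q = 0 := by
    have : (a ^ 2 + b ^ 2 - 1) * (P + Q) = 0 := by linear_combination -f1 - f2
    rcases mul_eq_zero.1 this with h | h
    · linarith
    · exact h
  have g2 : (P - Q) ^ 2 + (2 * R) ^ 2 = 0 := by
    have : ((a ^ 2 + b ^ 2) ^ 2 - 1) * ((P - Q) ^ 2 + (2 * R) ^ 2) = 0 := by
      have h1 : P - Q = (a ^ 2 - b ^ 2) * (P - Q) - 2 * a * b * (2 * R) := by
        linear_combination f1 - f2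
      have h2 : 2 * R = 2 * a * b * (P - Q) + (a ^ 2 - b ^ 2) * (2 * R) := by
        linear_combination 2 * f3
      have h3 : (P - Q) ^ 2 + (2 * R) ^ 2 =
        ((a ^ 2 - b ^ 2) * (P - Q) - 2 * a * b * (2 * R)) ^ 2 +
          (2 * a * b * (P - Q) + (a ^ 2 - b ^ 2) * (2 * R)) ^ 2 := by
        rw [← h1, ← h2]
      linear_combination -h3
    rcases mul_eq_zero.1 this with h | h
    · exfalso
      nlinarith
    · exact h
  have hR0 : R = 0 := by nlinarith [sq_nonneg (P - Q), sq_nonneg (2 * R)]
  have hPQ : P - Q = 0 := by nlinarith [sq_nonneg (P - Q), sq_nonneg (2 * R)]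
  have hP0 : P = 0 := by linarith
  have hQ0 : Q = 0 := by linarith
  by_cases hp0 : p = 0
  · -- then `q ≠ 0` and `q` is an eigenvector
    have hq0 : q ≠ 0 := by
      intro hq0
      apply hu
      ext i
      apply Complex.ext
      · exact congrFun hp0 i
      · exact congrFun hq0 i
    have hb : b • q = 0 := by
      have := hwp
      rw [hp0, map_zero, smul_zero, zero_add] at this
      rw [neg_smul] at this
      exact neg_eq_zero.1 this.symm
    have hb0 : b = 0 := by
      rcases smul_eq_zero.1 hb with h | h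
      · exact h
      · exact absurd h hq0
    refine ⟨a, q, ?_, hq0, ?_, hQ0⟩
    · rw [hb0] at hr
      have h1 : 1 < a ^ 2 := by nlinarith
      rwa [one_lt_sq_iff_one_lt_abs] at h1
    · rw [hwq, hb0]; simp
  · obtain ⟨l, hl⟩ := parallel p q hp0 hP0 hQ0 hR0
    have hwp' : w p = (a - b * l) • p := by
      rw [hwp, hl]; module
    have h1 : w q = (l * (a - b * l)) • p := by
      rw [hl, map_smul, hwp']; module
    have h2 : (b + a * l - l * (a - b * l)) • p = 0 := by
      have : w q = (b + a * l) • p := by rw [hwq, hl]; module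
      rw [this] at h1
      rw [sub_smul, h1, sub_self]
    have h3 : b + a * l - l * (a - b * l) = 0 := by
      rcases smul_eq_zero.1 h2 with h | h
      · exact h
      · exact absurd h hp0
    have h4 : b = 0 := by
      have : b * (1 + l ^ 2) = 0 := by linear_combination h3
      rcases mul_eq_zero.1 this with h | h
      · exact h
      · nlinarith [sq_nonneg l]
    refine ⟨a, p, ?_, hp0, ?_, hP0⟩
    · rw [h4] at hr
      have h1 : 1 < a ^ 2 := by nlinarith
      rwa [one_lt_sq_iff_one_lt_abs] at h1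
    · rw [hwp', h4]; simp

theorem no_int_eigen (w : V 3 ≃ₗ[ℝ] V 3) (hw : w ∈ idealTriangle.W) (t : ℝ) (ht : 1 < |t|)
    (c : V 3) (hc : IsInt c) (hc2 : c 2 = 1) (h : w c = t • c) : False := by
  obtain ⟨z, hz⟩ := (W_props w⁻¹ (inv_mem hw)).1 c hc
  have ht0 : t ≠ 0 := by rintro rfl; simp at ht; linarith
  have h1 : w⁻¹ c = t⁻¹ • c := by
    have : w⁻¹ (w c) = c := by
      change (w⁻¹ * w) c = c
      rw [inv_mul_cancel]; rfl
    rw [h, map_smul] at this
    rw [← this, smul_smul, inv_mul_cancel₀ ht0, one_smul, this]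
  rw [h1] at hz
  have h2 := congrFun hz 2
  simp [hc2] at h2
  -- `t⁻¹` is the integer `z 2`
  have h3 : |(z 2 : ℝ)| < 1 := by
    rw [← h2, abs_inv]
    exact inv_lt_one_of_one_lt₀ ht
  have h4 : |z 2| < 1 := by exact_mod_cast h3
  have h5 : z 2 = 0 := by rwa [Int.abs_lt_one_iff] at h4
  rw [h5] at h2
  simp at h2
  exact ht0 h2

theorem not_unimodular :
    Projectivization.mk ℝ (root 2) (root_ne_zero 2) ∉ idealTriangle.unimodularDirections := by
  rintro ⟨w, hw, hhyp, hle⟩
  obtain ⟨t, x, ht, hx0, hwx, hxx⟩ := hyperbolic_real w hw hhyp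
  have hmem : (root 2 : V 3) ∈ idealTriangle.unimodularSubspace w := by
    apply hle
    rw [Projectivization.submodule_mk]
    exact Submodule.mem_span_singleton_self _
  have h1 : idealTriangle.form (root 2) x = 0 := hmem t x (ne_of_gt ht) hwx
  rw [form_eq] at h1 hxx
  simp [root] at h1
  have h2 : x 2 = x 0 + x 1 := by linarith
  rw [h2] at hxx
  have h3 : x 0 * x 1 = 0 := by nlinarith
  rcases mul_eq_zero.1 h3 with h | h
  · have hx1 : x 1 ≠ 0 := by
      intro h'
      apply hx0
      ext i; fin_cases i <;> simp [h, h', h2]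
    refine no_int_eigen w hw t ht ![0, 1, 1] ⟨![0, 1, 1], ?_⟩ (by simp) ?_
    · ext i; fin_cases i <;> simp
    · have hx : x = x 1 • ![0, 1, 1] := by
        ext i; fin_cases i <;> simp [h, h2]
      rw [hx, map_smul, smul_comm] at hwx
      exact smul_right_injective _ hx1 hwx
  · have hx1 : x 0 ≠ 0 := by
      intro h'
      apply hx0
      ext i; fin_cases i <;> simp [h, h', h2]
    refine no_int_eigen w hw t ht ![1, 0, 1] ⟨![1, 0, 1], ?_⟩ (by simp) ?_
    · ext i; fin_cases i <;> simp
    · have hx : x = x 0 • ![1, 0, 1] := by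
        ext i; fin_cases i <;> simp [h, h2]
      rw [hx, map_smul, smul_comm] at hwx
      exact smul_right_injective _ hx1 hwx

/-! ### Limit roots are light-like -/

/-- The scale invariant function `𝓑(v, v) / |v|²`. -/
noncomputable def ratio : ℙ ℝ (V 3) → ℝ :=
  Projectivization.lift
    (fun v => idealTriangle.form v.1 v.1 / (v.1 0 ^ 2 + v.1 1 ^ 2 + v.1 2 ^ 2)) (by
      rintro ⟨a, ha⟩ ⟨b, hb⟩ t h
      simp only at h
      subst h
      have ht : t ≠ 0 := by rintro rfl; simp at ha
      simp only [form_eq, Pi.smul_apply, smul_eq_mul]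
      rw [div_eq_div_iff]
      · ring
      · intro h0
        apply ha
        have h1 : t * b 0 = 0 := by nlinarith [sq_nonneg (t * b 0), sq_nonneg (t * b 1), sq_nonneg (t * b 2)]
        have h2 : t * b 1 = 0 := by nlinarith [sq_nonneg (t * b 0), sq_nonneg (t * b 1), sq_nonneg (t * b 2)]
        have h3 : t * b 2 = 0 := by nlinarith [sq_nonneg (t * b 0), sq_nonneg (t * b 1), sq_nonneg (t * b 2)]
        ext i; fin_cases i
        · simpa using h1
        · simpa using h2
        · simpa using h3
      · intro h0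
        apply hb
        have h1 : b 0 = 0 := by nlinarith [sq_nonneg (b 0), sq_nonneg (b 1), sq_nonneg (b 2)]
        have h2 : b 1 = 0 := by nlinarith [sq_nonneg (b 0), sq_nonneg (b 1), sq_nonneg (b 2)]
        have h3 : b 2 = 0 := by nlinarith [sq_nonneg (b 0), sq_nonneg (b 1), sq_nonneg (b 2)]
        ext i; fin_cases i <;> simp [h1, h2, h3])

theorem sumsq_ne_zero (v : V 3) (hv : v ≠ 0) : v 0 ^ 2 + v 1 ^ 2 + v 2 ^ 2 ≠ 0 := by
  intro h0
  apply hv
  have h1 : v 0 = 0 := by nlinarith [sq_nonneg (v 0), sq_nonneg (v 1), sq_nonneg (v 2)]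
  have h2 : v 1 = 0 := by nlinarith [sq_nonneg (v 0), sq_nonneg (v 1), sq_nonneg (v 2)]
  have h3 : v 2 = 0 := by nlinarith [sq_nonneg (v 0), sq_nonneg (v 1), sq_nonneg (v 2)]
  ext i; fin_cases i <;> simp [h1, h2, h3]

theorem ratio_mk (v : V 3) (hv : v ≠ 0) : ratio (Projectivization.mk ℝ v hv) =
    idealTriangle.form v v / (v 0 ^ 2 + v 1 ^ 2 + v 2 ^ 2) := rfl

theorem ratio_continuous : @Continuous _ _ (projTopology 3) _ ratio := by
  have hc : ∀ i, Continuous (fun v : {v : V 3 // v ≠ 0} => v.1 i) :=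
    fun i => (continuous_apply i).comp continuous_subtype_val
  have h0 := hc 0
  have h1 := hc 1
  have h2 := hc 2
  have h : Continuous (fun v : {v : V 3 // v ≠ 0} =>
      idealTriangle.form v.1 v.1 / (v.1 0 ^ 2 + v.1 1 ^ 2 + v.1 2 ^ 2)) := by
    apply Continuous.div
    · simp only [form_eq]
      exact ((h0.mul ((h0.sub h1).sub h2)).add (h1.mul ((h0.neg.add h1).sub h2))).add
        (h2.mul ((h0.neg.sub h1).add h2))
    · exact ((h0.pow 2).add (h1.pow 2)).add (h2.pow 2)
    · rintro ⟨v, hv⟩
      exact sumsq_ne_zero v hv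
  exact h.quotient_lift _

theorem W_smul_mk (w : V 3 ≃ₗ[ℝ] V 3) (v : V 3) (hv : v ≠ 0) :
    w • Projectivization.mk ℝ v hv = Projectivization.mk ℝ (w v) (by
      simpa using hv) := rfl

theorem not_limitRoot :
    Projectivization.mk ℝ (root 2) (root_ne_zero 2) ∉ idealTriangle.limitRoots := by
  rintro ⟨s, u, hinj, hu, hlim⟩
  choose w hw huw using hu
  have hv0 : ∀ k, w k (root s) ≠ 0 := fun k => by simpa using root_ne_zero s
  have hroot : IsInt (root s) := by
    refine ⟨Pi.single s 1, ?_⟩
    ext i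
    by_cases h : i = s
    · subst h; simp [root]
    · simp [root, h]
  have hint : ∀ k, IsInt (w k (root s)) := fun k => (W_props (w k) (hw k)).1 _ hroot
  choose z hz using hint
  have hratio : ∀ k, ratio (u k) =
      1 / ((w k (root s)) 0 ^ 2 + (w k (root s)) 1 ^ 2 + (w k (root s)) 2 ^ 2) := by
    intro k
    rw [huw k, W_smul_mk, ratio_mk, (W_props (w k) (hw k)).2, form_root_self]
  have hl : Tendsto (fun k => ratio (u k)) atTop
      (𝓝 (ratio (Projectivization.mk ℝ (root 2) (root_ne_zero 2)))) := by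
    let _ := projTopology 3
    exact (ratio_continuous.tendsto _).comp hlim
  have h1 : ratio (Projectivization.mk ℝ (root 2) (root_ne_zero 2)) = 1 := by
    rw [ratio_mk, form_root_self]; simp [root]
  rw [h1] at hl
  have h2 : ∀ᶠ k in atTop, (1 / 2 : ℝ) < ratio (u k) :=
    hl.eventually (lt_mem_nhds (by norm_num))
  obtain ⟨K, hK⟩ := eventually_atTop.1 h2
  have h3 : ∀ k, K ≤ k → z k ∈ Set.Icc (fun _ : Fin 3 => (-1 : ℤ)) (fun _ => 1) := by
    intro k hk
    have h4 := hK k hk
    rw [hratio k] at h4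
    have h5 : 0 < (w k (root s)) 0 ^ 2 + (w k (root s)) 1 ^ 2 + (w k (root s)) 2 ^ 2 := by
      rcases lt_or_eq_of_le (show 0 ≤ (w k (root s)) 0 ^ 2 + (w k (root s)) 1 ^ 2 +
        (w k (root s)) 2 ^ 2 by positivity) with h | h
      · exact h
      · exact absurd h.symm (sumsq_ne_zero _ (hv0 k))
    rw [lt_div_iff₀ h5] at h4
    have h6 : ((z k 0 : ℝ)) ^ 2 + (z k 1 : ℝ) ^ 2 + (z k 2 : ℝ) ^ 2 < 2 := by
      rw [hz k] at h4
      linarith
    have h7 : (z k 0) ^ 2 + (z k 1) ^ 2 + (z k 2) ^ 2 < 2 := by exact_mod_cast h6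
    have h8 : ∀ i, -1 ≤ z k i ∧ z k i ≤ 1 := by
      intro i
      fin_cases i
      · simp only [Fin.zero_eta]
        constructor <;> nlinarith [sq_nonneg (z k 0), sq_nonneg (z k 1), sq_nonneg (z k 2)]
      · simp only [Fin.mk_one]
        constructor <;> nlinarith [sq_nonneg (z k 0), sq_nonneg (z k 1), sq_nonneg (z k 2)]
      · simp only [Fin.reduceFinMk]
        constructor <;> nlinarith [sq_nonneg (z k 0), sq_nonneg (z k 1), sq_nonneg (z k 2)]
    exact ⟨fun i => (h8 i).1, fun i => (h8 i).2⟩
  have hfin : (Set.Icc (fun _ : Fin 3 => (-1 : ℤ)) (fun _ => 1)).Finite := Set.finite_Icc _ _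
  have hinj' : Set.InjOn z (Set.Ici K) := by
    intro k _ l _ hkl
    apply hinj
    rw [huw k, huw l, W_smul_mk, W_smul_mk]
    congr 1
    rw [hz k, hz l, hkl]
  exact (Set.infinite_of_injOn_mapsTo hinj' (fun k hk => h3 k hk) (Set.Ici_infinite K)) hfin

/-! ### The simple root direction is a limit direction -/

/-- The vector attached to the pair of boundary points `-1/r`, `y`, where `η = 1/y` and
`ρ = 1/r`. -/
def vec (η ρ : ℝ) : V 3 := ![ρ, -η, ρ - η + 1 - ρ * η]

/-- The same vector with the first two coordinates exchanged. -/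
def vecJ (η ρ : ℝ) : V 3 := ![-η, ρ, ρ - η + 1 - ρ * η]

theorem vec_ne_zero (η ρ : ℝ) (hη : η ≠ 0) : vec η ρ ≠ 0 := by
  intro h
  have := congrFun h 1
  simp [vec] at this
  exact hη this

theorem vecJ_ne_zero (η ρ : ℝ) (hη : η ≠ 0) : vecJ η ρ ≠ 0 := by
  intro h
  have := congrFun h 0
  simp [vecJ] at this
  exact hη this

/-- The parabolic element `s₂ s₀`. -/
noncomputable def T : V 3 ≃ₗ[ℝ] V 3 :=
  idealTriangle.simpleReflection 2 * idealTriangle.simpleReflection 0

/-- The parabolic element `s₂ s₁`. -/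
noncomputable def U : V 3 ≃ₗ[ℝ] V 3 :=
  idealTriangle.simpleReflection 2 * idealTriangle.simpleReflection 1

theorem refl_mem (s : Fin 3) : idealTriangle.simpleReflection s ∈ idealTriangle.W :=
  Subgroup.subset_closure ⟨s, rfl⟩

theorem T_mem : T ∈ idealTriangle.W := mul_mem (refl_mem 2) (refl_mem 0)

theorem U_mem : U ∈ idealTriangle.W := mul_mem (refl_mem 2) (refl_mem 1)

theorem T_pow (N : ℕ) (x : V 3) : (T ^ N) x =
    ![x 0 + 2 * N * (x 2 - x 0 - x 1) + 4 * N ^ 2 * x 1, x 1,
      x 2 + 2 * N * (x 2 - x 0 - x 1) + 4 * N ^ 2 * x 1 + 4 * N * x 1] := by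
  induction N with
  | zero =>
    ext i; fin_cases i <;> simp
  | succ N ih =>
    rw [pow_succ']
    change idealTriangle.simpleReflection 2 (idealTriangle.simpleReflection 0 ((T ^ N) x)) = _
    rw [ih, refl0, refl2]
    ext i
    fin_cases i <;> simp <;> ring

theorem U_pow (N : ℕ) (x : V 3) : (U ^ N) x =
    ![x 0, x 1 + 2 * N * (x 2 - x 0 - x 1) + 4 * N ^ 2 * x 0,
      x 2 + 2 * N * (x 2 - x 0 - x 1) + 4 * N ^ 2 * x 0 + 4 * N * x 0] := by
  induction N with
  | zero =>
    ext i; fin_cases i <;> simp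
  | succ N ih =>
    rw [pow_succ']
    change idealTriangle.simpleReflection 2 (idealTriangle.simpleReflection 1 ((U ^ N) x)) = _
    rw [ih, refl1, refl2]
    ext i
    fin_cases i <;> simp <;> ring

theorem T_vec (N : ℕ) (η ρ η' ρ' : ℝ) (h1 : η * (2 * N + η') = 1) (h2 : ρ' * (2 * N + ρ) = 1) :
    (T ^ N) (vec η ρ) = (-(η * (2 * N + ρ))) • vecJ η' ρ' := by
  rw [T_pow]
  ext i
  fin_cases i
  · simp [vec, vecJ]
    linear_combination (-(2 * (N : ℝ) + ρ)) * h1
  · simp [vec, vecJ]
    linear_combination (-η) * h2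
  · simp [vec, vecJ]
    linear_combination (-(2 * (N : ℝ) + ρ)) * h1 + η * h2 - h1 - η * η' * h2

theorem U_vecJ (N : ℕ) (η ρ η' ρ' : ℝ) (h1 : η * (2 * N + η') = 1) (h2 : ρ' * (2 * N + ρ) = 1) :
    (U ^ N) (vecJ η ρ) = (-(η * (2 * N + ρ))) • vec η' ρ' := by
  rw [U_pow]
  ext i
  fin_cases i
  · simp [vec, vecJ]
    linear_combination (-η) * h2
  · simp [vec, vecJ]
    linear_combination (-(2 * (N : ℝ) + ρ)) * h1
  · simp [vec, vecJ]
    linear_combination (-(2 * (N : ℝ) + ρ)) * h1 + η * h2 - h1 - η * η' * h2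

/-- Existence of a point whose partial quotients are `2 N 0, 2 N 1, …` (finite version). -/
theorem exists_finite_cf (k : ℕ) : ∀ N : ℕ → ℕ, (∀ i, 1 ≤ N i) →
    ∃ η : ℕ → ℝ, (∀ i, 0 ≤ η i ∧ η i ≤ 1) ∧ ∀ i < k, η i * (2 * N i + η (i + 1)) = 1 := by
  induction k with
  | zero =>
    intro N _
    exact ⟨fun _ => 0, fun _ => ⟨le_refl 0, zero_le_one⟩, fun i hi => absurd hi (by omega)⟩
  | succ k ih =>
    intro N hN
    obtain ⟨η, h1, h2⟩ := ih (fun i => N (i + 1)) (fun i => hN (i + 1))
    have hpos : (2 : ℝ) ≤ 2 * N 0 + η 0 := by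
      have : (1 : ℝ) ≤ N 0 := by exact_mod_cast hN 0
      linarith [(h1 0).1]
    refine ⟨fun i => Nat.casesOn i (2 * N 0 + η 0)⁻¹ η, ?_, ?_⟩
    · intro i
      cases i with
      | zero =>
        constructor
        · change 0 ≤ (2 * (N 0 : ℝ) + η 0)⁻¹
          exact inv_nonneg.2 (by linarith)
        · exact inv_le_one_of_one_le₀ (by linarith)
      | succ i => exact h1 i
    · intro i hi
      cases i with
      | zero =>
        change (2 * (N 0 : ℝ) + η 0)⁻¹ * (2 * N 0 + η 0) = 1
        exact inv_mul_cancel₀ (by linarith)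
      | succ i => exact h2 i (by omega)

/-- Existence of a point whose partial quotients are `2 N 0, 2 N 1, …`. -/
theorem exists_cf (N : ℕ → ℕ) (hN : ∀ i, 1 ≤ N i) :
    ∃ η : ℕ → ℝ, (∀ i, 0 ≤ η i ∧ η i ≤ 1) ∧ ∀ i, η i * (2 * N i + η (i + 1)) = 1 := by
  let C : ℕ → Set (ℕ → ℝ) := fun k =>
    {η | (∀ i, 0 ≤ η i ∧ η i ≤ 1) ∧ ∀ i < k, η i * (2 * N i + η (i + 1)) = 1}
  have hclosed : ∀ k, IsClosed (C k) := by
    intro k
    have h1 : IsClosed {η : ℕ → ℝ | ∀ i, 0 ≤ η i ∧ η i ≤ 1} := by
      have : {η : ℕ → ℝ | ∀ i, 0 ≤ η i ∧ η i ≤ 1} = Set.Icc (fun _ => 0) (fun _ => 1) := by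
        ext η
        simp [Pi.le_def, forall_and]
      rw [this]
      exact isClosed_Icc
    have h2 : IsClosed {η : ℕ → ℝ | ∀ i < k, η i * (2 * N i + η (i + 1)) = 1} := by
      simp only [Set.ofPred_forall]
      refine isClosed_iInter fun i => isClosed_iInter fun _ => ?_
      exact isClosed_eq (by fun_prop) continuous_const
    exact h1.inter h2
  have hcompact : IsCompact (C 0) := by
    have : C 0 = Set.Icc (fun _ => 0) (fun _ => 1) := by
      ext η
      simp [C, Pi.le_def, forall_and]
    rw [this]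
    exact isCompact_Icc
  obtain ⟨η, hη⟩ := IsCompact.nonempty_iInter_of_sequence_nonempty_isCompact_isClosed C
    (fun k η h => ⟨h.1, fun i hi => h.2 i (by omega)⟩)
    (fun k => exists_finite_cf k N hN) hcompact hclosed
  rw [Set.mem_iInter] at hη
  exact ⟨η, (hη 0).1, fun i => (hη (i + 1)).2 i (by omega)⟩

theorem isLimit : Projectivization.mk ℝ (root 2) (root_ne_zero 2) ∈
    idealTriangle.limitDirections := by
  obtain ⟨η, hη01, hη⟩ := exists_cf (fun i => i + 1) (fun i => by omega)
  simp only [Nat.cast_add, Nat.cast_one] at hη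
  -- elementary bounds
  have hpos : ∀ i, 0 < η i := by
    intro i
    rcases lt_or_eq_of_le (hη01 i).1 with h | h
    · exact h
    · have := hη i
      rw [← h] at this
      simp at this
  have hanti : ∀ i, η (i + 1) < η i := by
    intro i
    have h1 := hη i
    have h2 := hη (i + 1)
    push_cast at h2
    have h3 := hpos i
    have h4 := hpos (i + 1)
    have h5 := hpos (i + 1 + 1)
    have h6 := (hη01 (i + 1)).2
    by_contra hcon
    push Not at hcon
    -- `η (i+1) ≥ η i`
    have h7 : η (i + 1) * (2 * ((i : ℝ) + 1 + 1) + η (i + 1 + 1)) >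
        η i * (2 * ((i : ℝ) + 1) + η (i + 1)) := by
      have h8 : 2 * ((i : ℝ) + 1 + 1) + η (i + 1 + 1) > 2 * ((i : ℝ) + 1) + η (i + 1) := by
        linarith
      have h9 : 0 < 2 * ((i : ℝ) + 1) + η (i + 1) := by positivity
      nlinarith
    linarith
  have hstrict : StrictAnti η := strictAnti_nat_of_succ_lt hanti
  have hle : ∀ i, η i ≤ 1 / ((i : ℝ) + 1) := by
    intro i
    rw [le_div_iff₀ (by positivity)]
    have h1 := hη i
    have h3 := hpos i
    have h4 := hpos (i + 1)
    have h5 : (0 : ℝ) ≤ i := Nat.cast_nonneg i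
    nlinarith [mul_pos h3 h4, mul_nonneg h3.le h5]
  -- the other end point
  let ρ : ℕ → ℝ := fun k => Nat.rec 0 (fun i r => (2 * ((i : ℝ) + 1) + r)⁻¹) k
  have hρ0 : ρ 0 = 0 := rfl
  have hρs : ∀ i, ρ (i + 1) = (2 * ((i : ℝ) + 1) + ρ i)⁻¹ := fun i => rfl
  have hρnn : ∀ i, 0 ≤ ρ i := by
    intro i
    induction i with
    | zero => exact le_refl 0
    | succ i ih => rw [hρs]; positivity
  have hρ : ∀ i, ρ (i + 1) * (2 * ((i : ℝ) + 1) + ρ i) = 1 := by
    intro i
    rw [hρs]
    have := hρnn i
    exact inv_mul_cancel₀ (by positivity)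
  have hρle : ∀ i, ρ (i + 1) ≤ 1 / ((i : ℝ) + 1) := by
    intro i
    rw [le_div_iff₀ (by positivity)]
    have h1 := hρ i
    have h2 := hρnn i
    have h3 := hρnn (i + 1)
    have h5 : (0 : ℝ) ≤ i := Nat.cast_nonneg i
    nlinarith [mul_nonneg h3 h2, mul_nonneg h3 h5]
  -- the orbit
  have step : ∀ k, (∃ w ∈ idealTriangle.W, Projectivization.mk ℝ (vec (η (2 * k)) (ρ (2 * k)))
      (vec_ne_zero _ _ (hpos _).ne') =
      w • Projectivization.mk ℝ (vec (η 0) (ρ 0)) (vec_ne_zero _ _ (hpos _).ne')) := by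
    intro k
    induction k with
    | zero => exact ⟨1, one_mem _, by rw [one_smul]⟩
    | succ k ih =>
      obtain ⟨w, hw, hk⟩ := ih
      refine ⟨U ^ (2 * k + 2) * (T ^ (2 * k + 1) * w), mul_mem (pow_mem U_mem _)
        (mul_mem (pow_mem T_mem _) hw), ?_⟩
      rw [mul_smul, mul_smul, ← hk, W_smul_mk, W_smul_mk]
      have h1 : (T ^ (2 * k + 1)) (vec (η (2 * k)) (ρ (2 * k))) =
          (-(η (2 * k) * (2 * ((2 * k + 1 : ℕ) : ℝ) + ρ (2 * k)))) •
            vecJ (η (2 * k + 1)) (ρ (2 * k + 1)) := by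
        apply T_vec
        · have := hη (2 * k); push_cast at this ⊢; exact this
        · have := hρ (2 * k); push_cast at this ⊢; exact this
      have h2 : (U ^ (2 * k + 2)) (vecJ (η (2 * k + 1)) (ρ (2 * k + 1))) =
          (-(η (2 * k + 1) * (2 * ((2 * k + 2 : ℕ) : ℝ) + ρ (2 * k + 1)))) •
            vec (η (2 * (k + 1))) (ρ (2 * (k + 1))) := by
        have e : 2 * (k + 1) = 2 * k + 1 + 1 := by ring
        rw [e]
        apply U_vecJ
        · have := hη (2 * k + 1); push_cast at this ⊢; linarith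
        · have := hρ (2 * k + 1); push_cast at this ⊢; linarith
      rw [Projectivization.mk_eq_mk_iff']
      have hc1 : (η (2 * k) * (2 * ((2 * k + 1 : ℕ) : ℝ) + ρ (2 * k))) ≠ 0 := by
        have := hpos (2 * k)
        have := hρnn (2 * k)
        positivity
      have hc2 : (η (2 * k + 1) * (2 * ((2 * k + 2 : ℕ) : ℝ) + ρ (2 * k + 1))) ≠ 0 := by
        have := hpos (2 * k + 1)
        have := hρnn (2 * k + 1)
        positivity
      refine ⟨(η (2 * k) * (2 * ((2 * k + 1 : ℕ) : ℝ) + ρ (2 * k)))⁻¹ *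
        (η (2 * k + 1) * (2 * ((2 * k + 2 : ℕ) : ℝ) + ρ (2 * k + 1)))⁻¹, ?_⟩
      have haux : ∀ a b : ℝ, a ≠ 0 → b ≠ 0 → a⁻¹ * b⁻¹ * -a * -b = 1 := by
        intro a b ha hb
        field_simp
      rw [h1, map_smul, h2, smul_smul, smul_smul, haux _ _ hc1 hc2, one_smul]
  refine ⟨Projectivization.mk ℝ (vec (η 0) (ρ 0)) (vec_ne_zero _ _ (hpos _).ne'),
    fun k => Projectivization.mk ℝ (vec (η (2 * k)) (ρ (2 * k))) (vec_ne_zero _ _ (hpos _).ne'),
    ?_, step, ?_⟩
  · -- injectivity
    intro k l hkl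
    simp only at hkl
    rw [Projectivization.mk_eq_mk_iff'] at hkl
    obtain ⟨c, hc⟩ := hkl
    have e0 := congrFun hc 0
    have e1 := congrFun hc 1
    have e2 := congrFun hc 2
    simp [vec] at e0 e1 e2
    have hcpos : 0 < c := by
      have h1 := hpos (2 * k)
      have h2 := hpos (2 * l)
      by_contra hcon
      push Not at hcon
      nlinarith
    have h3 : (c - 1) * (1 + c * (ρ (2 * l) * η (2 * l))) = 0 := by
      linear_combination e2 - e0 + e1 + c * η (2 * l) * e0 + ρ (2 * k) * e1
    have h4 : 0 < 1 + c * (ρ (2 * l) * η (2 * l)) := by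
      have h1 := hpos (2 * l)
      have h2 := hρnn (2 * l)
      positivity
    have h5 : c = 1 := by
      rcases mul_eq_zero.1 h3 with h | h
      · linarith
      · linarith
    rw [h5, one_mul] at e1
    have := hstrict.injective e1
    omega
  · -- convergence
    have hlimη : Tendsto (fun k : ℕ => η (2 * k)) atTop (𝓝 0) := by
      have h1 : Tendsto η atTop (𝓝 0) :=
        squeeze_zero (fun i => (hpos i).le) hle tendsto_one_div_add_atTop_nhds_zero_nat
      exact h1.comp (tendsto_id.const_mul_atTop' (by norm_num))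
    have hlimρ : Tendsto (fun k : ℕ => ρ (2 * k)) atTop (𝓝 0) := by
      have h0 : Tendsto (fun i => ρ (i + 1)) atTop (𝓝 0) :=
        squeeze_zero (fun i => hρnn (i + 1)) hρle tendsto_one_div_add_atTop_nhds_zero_nat
      have h1 : Tendsto ρ atTop (𝓝 0) := (tendsto_add_atTop_iff_nat 1).1 h0
      exact h1.comp (tendsto_id.const_mul_atTop' (by norm_num))
    have hvec : Tendsto (fun k : ℕ => vec (η (2 * k)) (ρ (2 * k))) atTop (𝓝 (root 2)) := by
      rw [tendsto_pi_nhds]
      intro i
      fin_cases i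
      · simpa [vec, root] using hlimρ
      · simpa [vec, root] using hlimη.neg
      · have : Tendsto (fun k : ℕ => ρ (2 * k) - η (2 * k) + 1 - ρ (2 * k) * η (2 * k)) atTop
            (𝓝 (0 - 0 + 1 - 0 * 0)) :=
          ((hlimρ.sub hlimη).add_const 1).sub (hlimρ.mul hlimη)
        simpa [vec, root] using this
    have hsub : Tendsto (fun k : ℕ => (⟨vec (η (2 * k)) (ρ (2 * k)),
        vec_ne_zero _ _ (hpos _).ne'⟩ : {v : V 3 // v ≠ 0})) atTop
        (𝓝 ⟨root 2, root_ne_zero 2⟩) := by
      rw [tendsto_subtype_rng]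
      exact hvec
    have hq : @Continuous {v : V 3 // v ≠ 0} (ℙ ℝ (V 3)) _ (projTopology 3)
        (fun v => Projectivization.mk ℝ v.1 v.2) := continuous_quotient_mk'
    let _ := projTopology 3
    exact (hq.tendsto _).comp hsub

/-- The disjoint union formula `E_V = 𝒰_hyp ⊔ E_Φ` fails for the Lorentzian geometric Coxeter
system of rank `3` with all `m s t = ∞` and all `c s t = 1` (the ideal triangle group): the
direction of some simple root is a limit direction, but it lies neither in `𝒰_hyp` nor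
in `E_Φ`. -/
theorem result : ∃ X : GeomCoxeter 3, X.IsLorentzian ∧
    (∀ s t, s ≠ t → X.m s t = 0 ∧ X.c s t = 1) ∧
    ∃ s : Fin 3, Projectivization.mk ℝ (root s) (root_ne_zero s) ∈ X.limitDirections ∧
      Projectivization.mk ℝ (root s) (root_ne_zero s) ∉ X.unimodularDirections ∧
      Projectivization.mk ℝ (root s) (root_ne_zero s) ∉ X.limitRoots :=
  ⟨idealTriangle, lorentzian, fun s t h => ⟨by simp [idealTriangle, h], rfl⟩, 2, isLimit,
    not_unimodular, not_limitRoot⟩

end Pool.Agent.Results.MP_de6c1e_al.IdealTriangle
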